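import Pool.Agent.Q219.LT.Lin

/-! Linear changes of variables in kinetic energies (MP_cfe56d_mp). -/

set_option autoImplicit false

open MeasureTheory Matrix Filter Topology

namespace Pool.Agent.Q219.LT

variable {d : ℕ}

theorem cont_mul (L : Matrix (Fin d) (Fin d) ℝ) : Continuous fun x : Fin d → ℝ => L *ᵥ x :=
  Continuous.matrix_mulVec continuous_const continuous_id

theorem det_ne {L : Matrix (Fin d) (Fin d) ℝ} (hL : L.det ^ 2 = 1) : L.det ≠ 0 := by
  intro h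
  rw [h] at hL
  norm_num at hL

theorem mp {L : Matrix (Fin d) (Fin d) ℝ} (hL : L.det ^ 2 = 1) :
    MeasurePreserving (fun x : Fin d → ℝ => L *ᵥ x) volume volume := by
  have h0 := det_ne hL
  have h1 : |L.det| = 1 := by
    rw [← sq_abs] at hL
    exact (pow_eq_one_iff_of_nonneg (abs_nonneg _) two_ne_zero).1 hL
  refine ⟨(cont_mul L).measurable, ?_⟩
  have h2 := Real.map_matrix_volume_pi_eq_smul_volume_pi h0
  rw [abs_inv, h1, inv_one, ENNReal.ofReal_one, one_smul] at h2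
  exact h2

theorem emb {L : Matrix (Fin d) (Fin d) ℝ} (hL : L.det ^ 2 = 1) :
    MeasurableEmbedding (fun x : Fin d → ℝ => L *ᵥ x) :=
  (cont_mul L).measurableEmbedding (Matrix.mulVec_injective_iff_isUnit.2
    ((Matrix.isUnit_iff_isUnit_det L).2 (isUnit_iff_ne_zero.2 (det_ne hL))))

theorem int_comp {G : Type*} [NormedAddCommGroup G] [NormedSpace ℝ G]
    {L : Matrix (Fin d) (Fin d) ℝ} (hL : L.det ^ 2 = 1) (F : (Fin d → ℝ) → G) :
    ∫ x, F (L *ᵥ x) = ∫ x, F x :=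
  (mp hL).integral_comp (emb hL) F

theorem memLp_comp {L : Matrix (Fin d) (Fin d) ℝ} (hL : L.det ^ 2 = 1) {u : (Fin d → ℝ) → ℂ}
    (hu : MemLp u 2 volume) : MemLp (fun x => u (L *ᵥ x)) 2 volume :=
  hu.comp_measurePreserving (mp hL)

/-- the partial derivative -/
noncomputable def pd (k : Fin d) (φ : (Fin d → ℝ) → ℝ) (x : Fin d → ℝ) : ℝ :=
  fderiv ℝ φ x (Pi.single k 1)

/-- the derivatives after the change of variables -/
noncomputable def cg (L : Matrix (Fin d) (Fin d) ℝ) (g : Fin d → (Fin d → ℝ) → ℂ) (k : Fin d)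
    (x : Fin d → ℝ) : ℂ := ∑ j, ((L j k : ℝ) : ℂ) * g j (L *ᵥ x)

theorem memLp_cg {L : Matrix (Fin d) (Fin d) ℝ} (hL : L.det ^ 2 = 1)
    {g : Fin d → (Fin d → ℝ) → ℂ} (hg : ∀ k, MemLp (g k) 2 volume) (k : Fin d) :
    MemLp (cg L g k) 2 volume := by
  have : cg L g k = ∑ j, fun x => ((L j k : ℝ) : ℂ) * g j (L *ᵥ x) := by
    funext x
    rw [Finset.sum_apply]
    rfl
  rw [this]
  exact memLp_finsetSum' _ fun j _ => (memLp_comp hL (hg j)).const_mul _

theorem int_test {u : (Fin d → ℝ) → ℂ} (hu : MemLp u 2 volume) {ψ : (Fin d → ℝ) → ℝ}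
    (hc : Continuous ψ) (hs : HasCompactSupport ψ) : Integrable fun x => u x * (ψ x : ℂ) := by
  have h1 : MemLp (fun x => (ψ x : ℂ)) 2 volume := by
    have : MemLp ψ 2 volume := hc.memLp_of_hasCompactSupport hs
    exact this.ofReal
  exact hu.integrable_mul h1

theorem weak_comp {L : Matrix (Fin d) (Fin d) ℝ} (hL : L.det ^ 2 = 1) {u : (Fin d → ℝ) → ℂ}
    {g : Fin d → (Fin d → ℝ) → ℂ} (hu : MemLp u 2 volume) (hg : ∀ k, MemLp (g k) 2 volume)
    (hw : ∀ k (φ : (Fin d → ℝ) → ℝ), ContDiff ℝ (⊤ : ℕ∞) φ → HasCompactSupport φ →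
      ∫ x, u x * (pd k φ x : ℂ) = - ∫ x, g k x * (φ x : ℂ))
    (k : Fin d) (φ : (Fin d → ℝ) → ℝ) (hφ : ContDiff ℝ (⊤ : ℕ∞) φ) (hs : HasCompactSupport φ) :
    ∫ x, u (L *ᵥ x) * (pd k φ x : ℂ) = - ∫ x, cg L g k x * (φ x : ℂ) := by
  have hdet := isUnit_iff_ne_zero.2 (det_ne hL)
  have hinv : ∀ x : Fin d → ℝ, L⁻¹ *ᵥ (L *ᵥ x) = x := fun x => by
    rw [Matrix.mulVec_mulVec, Matrix.nonsing_inv_mul _ hdet, Matrix.one_mulVec]
  have hinv' : ∀ x : Fin d → ℝ, L *ᵥ (L⁻¹ *ᵥ x) = x := fun x => by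
    rw [Matrix.mulVec_mulVec, Matrix.mul_nonsing_inv _ hdet, Matrix.one_mulVec]
  set Li : (Fin d → ℝ) →L[ℝ] (Fin d → ℝ) := LinearMap.toContinuousLinearMap (Matrix.mulVecLin L⁻¹)
    with hLi
  set Lc : (Fin d → ℝ) →L[ℝ] (Fin d → ℝ) := LinearMap.toContinuousLinearMap (Matrix.mulVecLin L)
    with hLc
  have hLi' : ∀ x, Li x = L⁻¹ *ᵥ x := fun x => rfl
  have hLc' : ∀ x, Lc x = L *ᵥ x := fun x => rfl
  set ψ : (Fin d → ℝ) → ℝ := fun y => φ (L⁻¹ *ᵥ y) with hψ
  have hψs : ContDiff ℝ (⊤ : ℕ∞) ψ := hφ.comp Li.contDiff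
  have hψc : HasCompactSupport ψ := by
    let e : (Fin d → ℝ) ≃ₜ (Fin d → ℝ) :=
      { toFun := fun y => L⁻¹ *ᵥ y
        invFun := fun y => L *ᵥ y
        left_inv := hinv'
        right_inv := hinv
        continuous_toFun := cont_mul _
        continuous_invFun := cont_mul _ }
    exact hs.comp_homeomorph e
  have hφψ : φ = fun x => ψ (Lc x) := by
    funext x
    rw [hLc', hψ]
    simp only [hinv]
  have hpd : ∀ x, pd k φ x = ∑ j, L j k * pd j ψ (L *ᵥ x) := by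
    intro x
    have h1 : HasFDerivAt φ ((fderiv ℝ ψ (Lc x)).comp Lc) x := by
      have h2 : HasFDerivAt ψ (fderiv ℝ ψ (Lc x)) (Lc x) :=
        (hψs.differentiable (by simp)).differentiableAt.hasFDerivAt
      conv => arg 1; rw [hφψ]
      exact h2.comp x Lc.hasFDerivAt
    unfold pd
    rw [h1.fderiv, ContinuousLinearMap.comp_apply, hLc', hLc']
    have h3 : L *ᵥ (Pi.single k (1 : ℝ)) = ∑ j, L j k • (Pi.single j (1 : ℝ) : Fin d → ℝ) := by
      funext i
      rw [Matrix.mulVec_single_one, Finset.sum_apply]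
      simp [Matrix.col_apply, Pi.single_apply]
    rw [h3, map_sum]
    simp only [map_smul, smul_eq_mul]
  have hF : (fun x => u (L *ᵥ x) * (pd k φ x : ℂ))
      = fun x => (fun y => ∑ j, ((L j k : ℝ) : ℂ) * (u y * (pd j ψ y : ℂ))) (L *ᵥ x) := by
    funext x
    simp only [hpd]
    push_cast
    rw [Finset.mul_sum]
    refine Finset.sum_congr rfl fun j _ => ?_
    ring
  have hpdc : ∀ j, Continuous (pd j ψ) := fun j => by
    have : Continuous (fderiv ℝ ψ) := hψs.continuous_fderiv (by simp)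
    exact this.clm_apply continuous_const
  have hpds : ∀ j, HasCompactSupport (pd j ψ) := fun j => by
    have := hψc.fderiv (𝕜 := ℝ)
    exact this.comp_left (g := fun A : (Fin d → ℝ) →L[ℝ] ℝ => A (Pi.single j 1)) (by simp)
  rw [hF, int_comp hL (fun y => ∑ j, ((L j k : ℝ) : ℂ) * (u y * (pd j ψ y : ℂ))),
    integral_finsetSum _ fun j _ => (int_test hu (hpdc j) (hpds j)).const_mul _]
  have hG : (fun x => cg L g k x * (φ x : ℂ))
      = fun x => (fun y => ∑ j, ((L j k : ℝ) : ℂ) * (g j y * (ψ y : ℂ))) (L *ᵥ x) := by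
    funext x
    simp only [cg, hψ, hinv]
    rw [Finset.sum_mul]
    refine Finset.sum_congr rfl fun j _ => ?_
    ring
  rw [hG, int_comp hL (fun y => ∑ j, ((L j k : ℝ) : ℂ) * (g j y * (ψ y : ℂ))),
    integral_finsetSum _ fun j _ => (int_test (hg j) hψs.continuous hψc).const_mul _,
    ← Finset.sum_neg_distrib]
  refine Finset.sum_congr rfl fun j _ => ?_
  rw [integral_const_mul, integral_const_mul, hw j ψ hψs hψc]
  ring

/-- the kinetic energy matrix of a family of functions with the derivatives `g n k` -/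
noncomputable def kin {N : ℕ} (g : Fin N → Fin d → (Fin d → ℝ) → ℂ) :
    Matrix (Fin d) (Fin d) ℝ :=
  fun j k => ∑ n, ∫ x, ((starRingEnd ℂ) (g n j x) * g n k x).re

theorem int_pair {f h : (Fin d → ℝ) → ℂ} (hf : MemLp f 2 volume) (hh : MemLp h 2 volume) :
    Integrable fun x => ((starRingEnd ℂ) (f x) * h x).re := by
  have h1 : MemLp (fun x => (starRingEnd ℂ) (f x)) 2 volume := hf.star
  exact (h1.integrable_mul hh).re

theorem quad_sum {N : ℕ} {g : Fin N → Fin d → (Fin d → ℝ) → ℂ}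
    (hg : ∀ n k, MemLp (g n k) 2 volume) (y : Fin d → ℝ) :
    ∑ n, ∫ x, ‖∑ j, ((y j : ℝ) : ℂ) * g n j x‖ ^ 2 = ∑ j, ∑ k, y j * y k * kin g j k := by
  have h1 : ∀ n x, ‖∑ j, ((y j : ℝ) : ℂ) * g n j x‖ ^ 2
      = ∑ j, ∑ k, y j * y k * ((starRingEnd ℂ) (g n j x) * g n k x).re := by
    intro n x
    rw [← Complex.normSq_eq_norm_sq]
    have h2 : ((Complex.normSq (∑ j, ((y j : ℝ) : ℂ) * g n j x) : ℝ) : ℂ)
        = (starRingEnd ℂ) (∑ j, ((y j : ℝ) : ℂ) * g n j x) * ∑ j, ((y j : ℝ) : ℂ) * g n j x := by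
      rw [mul_comm, Complex.mul_conj]
    have h3 : Complex.normSq (∑ j, ((y j : ℝ) : ℂ) * g n j x)
        = ((starRingEnd ℂ) (∑ j, ((y j : ℝ) : ℂ) * g n j x) * ∑ j, ((y j : ℝ) : ℂ) * g n j x).re := by
      rw [← h2, Complex.ofReal_re]
    rw [h3, map_sum, Finset.sum_mul_sum, Complex.re_sum]
    refine Finset.sum_congr rfl fun j _ => ?_
    rw [Complex.re_sum]
    refine Finset.sum_congr rfl fun k _ => ?_
    rw [map_mul, Complex.conj_ofReal]
    have : (((y j : ℝ) : ℂ) * (starRingEnd ℂ) (g n j x) * (((y k : ℝ) : ℂ) * g n k x))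
        = ((y j * y k : ℝ) : ℂ) * ((starRingEnd ℂ) (g n j x) * g n k x) := by
      push_cast; ring
    rw [this, Complex.re_ofReal_mul]
  have h4 : ∀ n, ∫ x, ‖∑ j, ((y j : ℝ) : ℂ) * g n j x‖ ^ 2
      = ∑ j, ∑ k, y j * y k * ∫ x, ((starRingEnd ℂ) (g n j x) * g n k x).re := by
    intro n
    simp only [h1]
    rw [integral_finsetSum _ fun j _ => integrable_finsetSum _ fun k _ =>
      (int_pair (hg n j) (hg n k)).const_mul _]
    refine Finset.sum_congr rfl fun j _ => ?_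
    rw [integral_finsetSum _ fun k _ => (int_pair (hg n j) (hg n k)).const_mul _]
    refine Finset.sum_congr rfl fun k _ => ?_
    rw [integral_const_mul]
  simp only [h4]
  rw [Finset.sum_comm]
  refine Finset.sum_congr rfl fun j _ => ?_
  rw [Finset.sum_comm]
  refine Finset.sum_congr rfl fun k _ => ?_
  rw [← Finset.mul_sum]
  rfl

theorem kin_symm {N : ℕ} (g : Fin N → Fin d → (Fin d → ℝ) → ℂ) : (kin g).IsHermitian := by
  rw [Matrix.IsHermitian, Matrix.conjTranspose_eq_transpose_of_trivial]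
  ext j k
  rw [Matrix.transpose_apply]
  unfold kin
  refine Finset.sum_congr rfl fun n _ => ?_
  congr 1
  funext x
  rw [Complex.mul_re, Complex.mul_re, Complex.conj_re, Complex.conj_im, Complex.conj_re,
    Complex.conj_im]
  ring

theorem kin_psd {N : ℕ} {g : Fin N → Fin d → (Fin d → ℝ) → ℂ}
    (hg : ∀ n k, MemLp (g n k) 2 volume) : (kin g).PosSemidef := by
  refine Matrix.PosSemidef.of_dotProduct_mulVec_nonneg (kin_symm g) fun y => ?_
  have h1 : star y ⬝ᵥ (kin g *ᵥ y) = ∑ j, ∑ k, y j * y k * kin g j k := by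
    simp only [dotProduct, Matrix.mulVec, star_trivial]
    refine Finset.sum_congr rfl fun j _ => ?_
    rw [Finset.mul_sum]
    refine Finset.sum_congr rfl fun k _ => ?_
    ring
  rw [h1, ← quad_sum hg]
  exact Finset.sum_nonneg fun n _ => integral_nonneg fun x => by positivity

theorem kin_trace {N : ℕ} (g : Fin N → Fin d → (Fin d → ℝ) → ℂ) :
    (kin g).trace = ∑ n, ∑ k, ∫ x, ‖g n k x‖ ^ 2 := by
  unfold Matrix.trace kin
  simp only [Matrix.diag_apply]
  rw [Finset.sum_comm]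
  refine Finset.sum_congr rfl fun n _ => Finset.sum_congr rfl fun k _ => ?_
  congr 1
  funext x
  rw [← Complex.normSq_eq_norm_sq, Complex.normSq_apply, Complex.mul_re, Complex.conj_re,
    Complex.conj_im]
  ring

theorem kin_cg {N : ℕ} {g : Fin N → Fin d → (Fin d → ℝ) → ℂ}
    (hg : ∀ n k, MemLp (g n k) 2 volume) {L : Matrix (Fin d) (Fin d) ℝ} (hL : L.det ^ 2 = 1) :
    ∑ n, ∑ k, ∫ x, ‖cg L (g n) k x‖ ^ 2 = (Lᵀ * kin g * L).trace := by
  have h1 : ∀ n k, ∫ x, ‖cg L (g n) k x‖ ^ 2 = ∫ x, ‖∑ j, ((L j k : ℝ) : ℂ) * g n j x‖ ^ 2 :=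
    fun n k => int_comp hL (fun y => ‖∑ j, ((L j k : ℝ) : ℂ) * g n j y‖ ^ 2)
  simp only [h1]
  rw [Finset.sum_comm]
  unfold Matrix.trace
  refine Finset.sum_congr rfl fun k _ => ?_
  rw [quad_sum hg (fun j => L j k), Matrix.diag_apply, Matrix.mul_apply]
  rw [Finset.sum_comm]
  refine Finset.sum_congr rfl fun j _ => ?_
  rw [Matrix.mul_apply, Finset.sum_mul]
  refine Finset.sum_congr rfl fun i _ => ?_
  rw [Matrix.transpose_apply]
  ring

end Pool.Agent.Q219.LT
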