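import Mathlib

/-! Linear algebra for the affine invariant kinetic energy inequality (MP_cfe56d_mp). -/

set_option autoImplicit false

open Matrix Filter Topology

namespace Pool.Agent.Q219.LT

variable {d : ℕ}

theorem amgm {T : Matrix (Fin d) (Fin d) ℝ} (hd : 0 < d) (hT : T.PosSemidef) :
    (d : ℝ) * T.det ^ (1 / (d : ℝ)) ≤ T.trace := by
  have h1 : T.det = ∏ i, hT.1.eigenvalues i := by
    have := hT.1.det_eq_prod_eigenvalues
    simpa using this
  have h2 : T.trace = ∑ i, hT.1.eigenvalues i := by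
    have := hT.1.trace_eq_sum_eigenvalues
    simpa using this
  have h0 : ∀ i, 0 ≤ hT.1.eigenvalues i := fun i => hT.eigenvalues_nonneg i
  have hd' : (0 : ℝ) < d := by exact_mod_cast hd
  have h3 := Real.geom_mean_le_arith_mean_weighted Finset.univ (fun _ : Fin d => 1 / (d : ℝ))
    hT.1.eigenvalues (fun i _ => by positivity) (by simp; field_simp) (fun i _ => h0 i)
  rw [Real.finset_prod_rpow _ _ (fun i _ => h0 i), ← h1, ← Finset.mul_sum, ← h2] at h3
  have h4 : (d : ℝ) * T.det ^ (1 / (d : ℝ)) ≤ d * (1 / (d : ℝ) * T.trace) := by gcongr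
  refine h4.trans (le_of_eq ?_)
  field_simp

theorem exists_frame {T : Matrix (Fin d) (Fin d) ℝ} (hd : 0 < d) (hT : T.PosDef) :
    ∃ L : Matrix (Fin d) (Fin d) ℝ, L.det ^ 2 = 1 ∧
      (Lᵀ * T * L).trace = d * T.det ^ (1 / (d : ℝ)) := by
  have hd' : (0 : ℝ) < d := by exact_mod_cast hd
  have h0 : ∀ i, 0 < hT.1.eigenvalues i := fun i => hT.eigenvalues_pos i
  have h1 : T.det = ∏ i, hT.1.eigenvalues i := by
    have := hT.1.det_eq_prod_eigenvalues
    simpa using this
  have hdet : 0 < T.det := hT.det_pos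
  set U := (hT.1.eigenvectorUnitary : Matrix (Fin d) (Fin d) ℝ) with hU
  set D := Matrix.diagonal hT.1.eigenvalues with hD
  set S := Matrix.diagonal (fun i => (√(hT.1.eigenvalues i))⁻¹) with hS
  have h2 : T = U * D * star U := by
    have := hT.1.spectral_theorem
    rw [Unitary.conjStarAlgAut_apply] at this
    exact this
  have h3 : star U * U = 1 := Unitary.coe_star_mul_self _
  have hst : star U = Uᵀ := by
    rw [Matrix.star_eq_conjTranspose, Matrix.conjTranspose_eq_transpose_of_trivial]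
  have hUdet : U.det ^ 2 = 1 := by
    have := congrArg Matrix.det h3
    rw [Matrix.det_mul, hst, Matrix.det_transpose, Matrix.det_one] at this
    rw [sq]; exact this
  set c : ℝ := T.det ^ (1 / (2 * d : ℝ)) with hc
  have hc0 : 0 < c := Real.rpow_pos_of_pos hdet _
  have hc2 : c ^ 2 = T.det ^ (1 / (d : ℝ)) := by
    rw [hc, ← Real.rpow_natCast, ← Real.rpow_mul hdet.le]
    congr 1
    push_cast; field_simp
  have hc2d : (c ^ d) ^ 2 = T.det := by
    rw [← pow_mul, mul_comm, pow_mul, hc2, ← Real.rpow_natCast, ← Real.rpow_mul hdet.le]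
    have : 1 / (d : ℝ) * (d : ℝ) = 1 := by field_simp
    rw [this, Real.rpow_one]
  refine ⟨c • (U * S), ?_, ?_⟩
  · rw [Matrix.det_smul, Matrix.det_mul, Fintype.card_fin, hS, Matrix.det_diagonal, mul_pow,
      mul_pow, hUdet, hc2d, one_mul, h1, ← Finset.prod_pow, ← Finset.prod_mul_distrib]
    refine Finset.prod_eq_one fun i _ => ?_
    rw [inv_pow, Real.sq_sqrt (h0 i).le]
    exact mul_inv_cancel₀ (h0 i).ne'
  · have h4 : (c • (U * S))ᵀ * T * (c • (U * S)) = (c ^ 2) • (1 : Matrix (Fin d) (Fin d) ℝ) := by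
      rw [Matrix.transpose_smul, Matrix.transpose_mul, hS, Matrix.diagonal_transpose, ← hS, ← hst]
      rw [Matrix.smul_mul, Matrix.smul_mul, Matrix.mul_smul, smul_smul, ← sq]
      congr 1
      have e1 : S * star U * T * (U * S) = S * (star U * U) * D * (star U * U) * S := by
        conv_lhs => rw [h2]
        simp only [Matrix.mul_assoc]
      rw [e1, h3, Matrix.mul_one, Matrix.mul_one, hS, hD, Matrix.diagonal_mul_diagonal,
        Matrix.diagonal_mul_diagonal, ← Matrix.diagonal_one]
      congr 1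
      funext i
      have h5 : √(hT.1.eigenvalues i) ≠ 0 := (Real.sqrt_pos.2 (h0 i)).ne'
      have h6 : hT.1.eigenvalues i = √(hT.1.eigenvalues i) * √(hT.1.eigenvalues i) :=
        (Real.mul_self_sqrt (h0 i).le).symm
      field_simp
      rw [sq]
      exact h6
    rw [h4, Matrix.trace_smul, Matrix.trace_one, hc2]
    simp [mul_comm]

theorem det_bound {T : Matrix (Fin d) (Fin d) ℝ} (hd : 0 < d) (hT : T.PosSemidef) {a : ℝ}
    (h : ∀ L : Matrix (Fin d) (Fin d) ℝ, L.det ^ 2 = 1 → a ≤ (Lᵀ * T * L).trace) :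
    a ≤ d * T.det ^ (1 / (d : ℝ)) := by
  have hε : ∀ ε : ℝ, 0 < ε → a ≤ d * (T + ε • (1 : Matrix (Fin d) (Fin d) ℝ)).det ^ (1 / (d : ℝ)) := by
    intro ε hε
    have hp : (T + ε • (1 : Matrix (Fin d) (Fin d) ℝ)).PosDef :=
      Matrix.PosDef.posSemidef_add hT (Matrix.PosDef.one.smul hε)
    obtain ⟨L, hL1, hL2⟩ := exists_frame hd hp
    rw [← hL2]
    refine (h L hL1).trans ?_
    rw [Matrix.mul_add, Matrix.add_mul, Matrix.trace_add]
    have h1 : 0 ≤ (Lᵀ * (ε • (1 : Matrix (Fin d) (Fin d) ℝ)) * L).trace := by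
      rw [Matrix.mul_smul, Matrix.smul_mul, Matrix.mul_one, Matrix.trace_smul]
      have : 0 ≤ (Lᵀ * L).trace := by
        unfold Matrix.trace
        refine Finset.sum_nonneg fun i _ => ?_
        rw [Matrix.diag_apply, Matrix.mul_apply]
        refine Finset.sum_nonneg fun j _ => ?_
        rw [Matrix.transpose_apply]
        exact mul_self_nonneg _
      exact mul_nonneg hε.le this
    linarith
  have hcont : Continuous fun ε : ℝ =>
      (d : ℝ) * (T + ε • (1 : Matrix (Fin d) (Fin d) ℝ)).det ^ (1 / (d : ℝ)) := by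
    refine continuous_const.mul ?_
    refine Continuous.rpow_const ?_ fun _ => Or.inr (by positivity)
    refine Continuous.matrix_det ?_
    exact continuous_const.add (continuous_id.smul continuous_const)
  have h1 : Tendsto (fun ε : ℝ =>
      (d : ℝ) * (T + ε • (1 : Matrix (Fin d) (Fin d) ℝ)).det ^ (1 / (d : ℝ))) (𝓝[>] 0)
      (𝓝 (d * T.det ^ (1 / (d : ℝ)))) := by
    have := hcont.tendsto 0
    simp only [zero_smul, add_zero] at this
    exact this.mono_left nhdsWithin_le_nhds
  refine ge_of_tendsto h1 ?_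
  filter_upwards [self_mem_nhdsWithin] with ε hε'
  exact hε ε hε'

end Pool.Agent.Q219.LT
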